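import Mathlib

set_option autoImplicit false

/-! The growth of the numbers `2 ^ j!`. -/

namespace Pool.Agent.L7h16.GS

theorem fact_le (n : ℕ) : n.factorial ≤ 2 ^ (n * n) := by
  calc n.factorial ≤ n ^ n := Nat.factorial_le_pow n
    _ ≤ (2 ^ n) ^ n := Nat.pow_le_pow_left n.lt_two_pow_self.le n
    _ = 2 ^ (n * n) := (pow_mul 2 n n).symm

theorem sq_le_fact {D : ℕ} (hD : 4 ≤ D) : D * D ≤ (D + 1).factorial := by
  obtain ⟨k, rfl⟩ : ∃ k, D = k + 4 := ⟨D - 4, by omega⟩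
  rw [Nat.factorial_succ, Nat.factorial_succ, Nat.factorial_succ]
  have h1 : 1 ≤ (k + 2).factorial := Nat.factorial_pos _
  calc (k + 4) * (k + 4) ≤ (k + 4 + 1) * ((k + 3 + 1) * ((k + 2 + 1) * 1)) := by nlinarith
    _ ≤ (k + 4 + 1) * ((k + 3 + 1) * ((k + 2 + 1) * (k + 2).factorial)) :=
        Nat.mul_le_mul_left _ (Nat.mul_le_mul_left _ (Nat.mul_le_mul_left _ h1))

/-- the height is less than the first members -/
theorem height_lt {N r D H : ℕ} (hN : 1 ≤ N) (hr : r ≤ N) (hD : 4 * N ≤ D)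
    (hH : H ≤ N.factorial ^ 2 * (2 * r) ^ D) : H < 2 ^ (D + 1).factorial := by
  have h1 : N.factorial ^ 2 ≤ 2 ^ (2 * (N * N)) := by
    calc N.factorial ^ 2 ≤ (2 ^ (N * N)) ^ 2 := Nat.pow_le_pow_left (fact_le N) 2
      _ = 2 ^ (2 * (N * N)) := by rw [← pow_mul]; ring_nf
  have h2 : (2 * r) ^ D ≤ 2 ^ (2 * N * D) := by
    calc (2 * r) ^ D ≤ (2 ^ (2 * N)) ^ D :=
          Nat.pow_le_pow_left ((Nat.mul_le_mul_left 2 hr).trans (2 * N).lt_two_pow_self.le) D
      _ = 2 ^ (2 * N * D) := (pow_mul 2 _ _).symm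
  have h3 : H ≤ 2 ^ (2 * (N * N) + 2 * N * D) := by
    rw [pow_add]
    exact hH.trans (Nat.mul_le_mul h1 h2)
  refine h3.trans_lt (Nat.pow_lt_pow_right (by norm_num) ?_)
  have h4 : D * D ≤ (D + 1).factorial := sq_le_fact (by omega)
  have h5 : 4 * N * D ≤ D * D := Nat.mul_le_mul_right D hD
  have h6 : 4 * N * N ≤ N * D := by nlinarith
  have h7 : 1 ≤ N * N := Nat.mul_pos hN hN
  nlinarith

/-- the growth -/
theorem step_lt {D H i j : ℕ} (hH : H < 2 ^ (D + 1).factorial) (hi : D < i) (hij : i < j) :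
    H < 2 ^ i.factorial ∧ H * (2 ^ i.factorial) ^ D < 2 ^ j.factorial := by
  have h1 : H < 2 ^ i.factorial :=
    hH.trans_le (Nat.pow_le_pow_right (by norm_num) (Nat.factorial_le hi))
  refine ⟨h1, ?_⟩
  have h2 : (2 ^ i.factorial) ^ (i + 1) ≤ 2 ^ j.factorial := by
    rw [← pow_mul]
    refine Nat.pow_le_pow_right (by norm_num) ?_
    rw [mul_comm]
    exact (Nat.factorial_succ i).symm.le.trans (Nat.factorial_le hij)
  calc H * (2 ^ i.factorial) ^ D < 2 ^ i.factorial * (2 ^ i.factorial) ^ D :=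
        Nat.mul_lt_mul_of_pos_right h1 (by positivity)
    _ = (2 ^ i.factorial) ^ (D + 1) := by rw [pow_succ]; ring
    _ ≤ (2 ^ i.factorial) ^ (i + 1) := Nat.pow_le_pow_right (by positivity) (by omega)
    _ ≤ 2 ^ j.factorial := h2

theorem fact_inj {i j : ℕ} (hi : 1 < i) (h : (2 : ℕ) ^ i.factorial = 2 ^ j.factorial) :
    i = j := by
  have h1 : i.factorial = j.factorial := Nat.pow_right_injective (le_refl 2) h
  exact (Nat.factorial_inj hi).1 h1

theorem fact_lt {i j : ℕ} (h : (2 : ℕ) ^ i.factorial < 2 ^ j.factorial) : i < j := by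
  have h1 : i.factorial < j.factorial := (Nat.pow_lt_pow_iff_right (by norm_num)).1 h
  by_contra hcon
  exact absurd (Nat.factorial_le (not_lt.1 hcon)) (not_le.2 h1)

end Pool.Agent.L7h16.GS
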