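import Mathlib
import Pool.Agent.Y210.EF.Nrm

set_option autoImplicit false

/-! A polynomial with integral coefficients does not vanish at natural numbers which grow fast. -/

namespace Pool.Agent.L7h16.GS

open MvPolynomial Pool.Agent.Y210.EF

theorem mono_lt {σ : Type*} [Fintype σ] {x : σ → ℕ} {H D : ℕ} (hx : ∀ l, H < x l)
    (hx' : ∀ l l', x l < x l' → H * x l ^ D < x l') (hinj : Function.Injective x)
    {s t : σ → ℕ} (hs : ∑ l, s l ≤ D) {l : σ} (hl : s l < t l)
    (hmax : ∀ j, s j ≠ t j → x j ≤ x l) :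
    H * ∏ j, x j ^ s j < ∏ j, x j ^ t j := by
  classical
  have hpos : ∀ j, 1 ≤ x j := fun j => by have := hx j; omega
  have hsplit : ∀ u : σ → ℕ, ∏ j, x j ^ u j = (∏ j ∈ Finset.univ.filter (fun j => x j < x l), x j ^ u j) *
      x l ^ u l * ∏ j ∈ Finset.univ.filter (fun j => x l < x j), x j ^ u j := by
    intro u
    rw [← Finset.prod_filter_mul_prod_filter_not Finset.univ (fun j => x j < x l), mul_assoc]
    congr 1
    have h1 : Finset.univ.filter (fun j => ¬ x j < x l) =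
        insert l (Finset.univ.filter (fun j => x l < x j)) := by
      ext j
      simp only [Finset.mem_filter, Finset.mem_univ, true_and, Finset.mem_insert, not_lt]
      constructor
      · intro h
        rcases h.lt_or_eq with h | h
        · exact Or.inr h
        · exact Or.inl (hinj h).symm
      · rintro (rfl | h)
        · exact le_rfl
        · exact h.le
    rw [h1, Finset.prod_insert (by simp)]
  have hQ : (∏ j ∈ Finset.univ.filter (fun j => x l < x j), x j ^ s j) =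
      ∏ j ∈ Finset.univ.filter (fun j => x l < x j), x j ^ t j := by
    refine Finset.prod_congr rfl fun j hj => ?_
    rw [Finset.mem_filter] at hj
    by_cases h : s j = t j
    · rw [h]
    · exact absurd (hmax j h) (not_le.2 hj.2)
  have hP : H * (∏ j ∈ Finset.univ.filter (fun j => x j < x l), x j ^ s j) < x l := by
    rcases (Finset.univ.filter (fun j => x j < x l)).eq_empty_or_nonempty with h | h
    · rw [h, Finset.prod_empty, mul_one]
      exact hx l
    · obtain ⟨j₀, hj₀, hj₀'⟩ := Finset.exists_max_image _ x h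
      rw [Finset.mem_filter] at hj₀
      refine lt_of_le_of_lt (Nat.mul_le_mul_left H ?_) (hx' j₀ l hj₀.2)
      calc ∏ j ∈ Finset.univ.filter (fun j => x j < x l), x j ^ s j
          ≤ ∏ j ∈ Finset.univ.filter (fun j => x j < x l), x j₀ ^ s j :=
            Finset.prod_le_prod' fun j hj => Nat.pow_le_pow_left (hj₀' j hj) _
        _ = x j₀ ^ ∑ j ∈ Finset.univ.filter (fun j => x j < x l), s j :=
            Finset.prod_pow_eq_pow_sum _ _ _
        _ ≤ x j₀ ^ D := Nat.pow_le_pow_right (hpos j₀)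
            ((Finset.sum_le_sum_of_subset (Finset.filter_subset _ _)).trans hs)
  have hPt : 1 ≤ ∏ j ∈ Finset.univ.filter (fun j => x j < x l), x j ^ t j :=
    Nat.one_le_iff_ne_zero.2 (Finset.prod_ne_zero_iff.2 fun j _ =>
      pow_ne_zero _ (by have := hpos j; omega))
  have hQ1 : 1 ≤ ∏ j ∈ Finset.univ.filter (fun j => x l < x j), x j ^ t j :=
    Nat.one_le_iff_ne_zero.2 (Finset.prod_ne_zero_iff.2 fun j _ =>
      pow_ne_zero _ (by have := hpos j; omega))
  rw [hsplit s, hsplit t, hQ]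
  obtain ⟨A, hA⟩ : ∃ A, A = ∏ j ∈ Finset.univ.filter (fun j => x j < x l), x j ^ s j := ⟨_, rfl⟩
  obtain ⟨A', hA'⟩ : ∃ A, A = ∏ j ∈ Finset.univ.filter (fun j => x j < x l), x j ^ t j := ⟨_, rfl⟩
  obtain ⟨B, hB⟩ : ∃ B, B = ∏ j ∈ Finset.univ.filter (fun j => x l < x j), x j ^ t j := ⟨_, rfl⟩
  rw [← hA, ← hA', ← hB]
  rw [← hA] at hP
  rw [← hA'] at hPt
  rw [← hB] at hQ1
  have h1 : x l ^ s l * x l ≤ x l ^ t l := by
    rw [← pow_succ]
    exact Nat.pow_le_pow_right (hpos l) hl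
  have h2 : 0 < x l ^ s l := pow_pos (hpos l) _
  calc H * (A * x l ^ s l * B) = (H * A) * (x l ^ s l * B) := by ring
    _ < x l * (x l ^ s l * B) := Nat.mul_lt_mul_of_pos_right hP (Nat.mul_pos h2 hQ1)
    _ = 1 * (x l ^ s l * x l) * B := by ring
    _ ≤ A' * x l ^ t l * B := Nat.mul_le_mul_right B (Nat.mul_le_mul hPt h1)

theorem dom {σ : Type*} [Fintype σ] {x : σ → ℕ} {H D : ℕ} (hx : ∀ l, H < x l)
    (hx' : ∀ l l', x l < x l' → H * x l ^ D < x l') (hinj : Function.Injective x)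
    {s t : σ → ℕ} (hs : ∑ l, s l ≤ D) (ht : ∑ l, t l ≤ D) (hst : s ≠ t)
    (hle : ∏ j, x j ^ s j ≤ ∏ j, x j ^ t j) :
    H * ∏ j, x j ^ s j < ∏ j, x j ^ t j := by
  classical
  have hne : (Finset.univ.filter (fun j => s j ≠ t j)).Nonempty := by
    obtain ⟨j, hj⟩ := Function.ne_iff.1 hst
    exact ⟨j, by simp [hj]⟩
  obtain ⟨l, hl, hl'⟩ := Finset.exists_max_image _ x hne
  have hl1 : s l ≠ t l := by simpa using hl
  have hmax : ∀ j, s j ≠ t j → x j ≤ x l := fun j hj => hl' j (by simp [hj])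
  rcases lt_or_gt_of_ne hl1 with h | h
  · exact mono_lt hx hx' hinj hs h hmax
  · have h1 := mono_lt hx hx' hinj ht h fun j hj => hmax j hj.symm
    rcases Nat.eq_zero_or_pos H with h0 | h0
    · rw [h0, zero_mul]
      exact Nat.pos_of_ne_zero (Finset.prod_ne_zero_iff.2 fun j _ =>
        pow_ne_zero _ (by have := hx j; omega))
    · exfalso
      have h2 : ∏ j, x j ^ t j ≤ H * ∏ j, x j ^ t j := Nat.le_mul_of_pos_left _ h0
      omega

theorem grow {σ : Type*} [Fintype σ] {F : MvPolynomial σ ℤ} (hF : F ≠ 0) {D H : ℕ}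
    (hD : F.totalDegree ≤ D) (hH : l1 F ≤ H) {x : σ → ℕ} (hx : ∀ l, H < x l)
    (hx' : ∀ l l', x l < x l' → H * x l ^ D < x l') (hinj : Function.Injective x) :
    eval (fun l => (x l : ℤ)) F ≠ 0 := by
  classical
  have hne : F.support.Nonempty := support_nonempty.2 hF
  obtain ⟨t, ht, ht'⟩ := Finset.exists_max_image F.support (fun s => ∏ j, x j ^ s j) hne
  intro h0
  have hdeg : ∀ s ∈ F.support, ∑ l, s l ≤ D := by
    intro s hs
    have h1 : (s.sum fun _ e => e) ≤ F.totalDegree := le_totalDegree hs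
    rw [Finsupp.sum_fintype _ _ (fun _ => rfl)] at h1
    exact h1.trans hD
  have hdom : ∀ s ∈ F.support, s ≠ t → H * ∏ j, x j ^ s j < ∏ j, x j ^ t j := fun s hs hst =>
    dom hx hx' hinj (hdeg s hs) (hdeg t ht) (fun h => hst (Finsupp.ext fun j => congrFun h j))
      (ht' s hs)
  have hev : eval (fun l => (x l : ℤ)) F = ∑ s ∈ F.support, F.coeff s * ((∏ j, x j ^ s j : ℕ) : ℤ) := by
    rw [eval_eq']
    refine Finset.sum_congr rfl fun s _ => ?_
    push_cast
    rfl
  rw [hev, ← Finset.add_sum_erase _ _ ht] at h0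
  have hct : 1 ≤ (F.coeff t).natAbs :=
    Nat.one_le_iff_ne_zero.2 (Int.natAbs_ne_zero.2 (mem_support_iff.1 ht))
  have hl1 : l1 F = (F.coeff t).natAbs + ∑ s ∈ F.support.erase t, (F.coeff s).natAbs := by
    unfold l1
    rw [← Finset.add_sum_erase _ _ ht]
  obtain ⟨M, hM⟩ : ∃ M, M = ∏ j, x j ^ t j := ⟨_, rfl⟩
  rw [← hM] at h0 hdom
  have hMpos : 1 ≤ M := by
    rw [hM]
    exact Nat.one_le_iff_ne_zero.2 (Finset.prod_ne_zero_iff.2 fun j _ =>
      pow_ne_zero _ (by have := hx j; omega))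
  have h1 : (F.coeff t).natAbs * M ≤ ∑ s ∈ F.support.erase t, (F.coeff s).natAbs * ∏ j, x j ^ s j := by
    have h2 : F.coeff t * (M : ℤ) =
        - ∑ s ∈ F.support.erase t, F.coeff s * ((∏ j, x j ^ s j : ℕ) : ℤ) := by
      linarith
    have h3 := congrArg Int.natAbs h2
    rw [Int.natAbs_mul, Int.natAbs_natCast, Int.natAbs_neg] at h3
    rw [h3]
    refine (Int.natAbs_sum_le _ _).trans (le_of_eq ?_)
    refine Finset.sum_congr rfl fun s _ => ?_
    rw [Int.natAbs_mul, Int.natAbs_natCast]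
  have h4 : H * M ≤ (∑ s ∈ F.support.erase t, (F.coeff s).natAbs) * M := by
    calc H * M = H * (1 * M) := by rw [one_mul]
      _ ≤ H * ((F.coeff t).natAbs * M) := Nat.mul_le_mul_left _ (Nat.mul_le_mul_right _ hct)
      _ ≤ H * ∑ s ∈ F.support.erase t, (F.coeff s).natAbs * ∏ j, x j ^ s j :=
          Nat.mul_le_mul_left _ h1
      _ = ∑ s ∈ F.support.erase t, (F.coeff s).natAbs * (H * ∏ j, x j ^ s j) := by
          rw [Finset.mul_sum]
          exact Finset.sum_congr rfl fun s _ => by ring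
      _ ≤ ∑ s ∈ F.support.erase t, (F.coeff s).natAbs * M :=
          Finset.sum_le_sum fun s hs => Nat.mul_le_mul_left _
            (hdom s (Finset.mem_of_mem_erase hs) (Finset.ne_of_mem_erase hs)).le
      _ = _ := by rw [Finset.sum_mul]
  have h5 := Nat.le_of_mul_le_mul_right h4 hMpos
  omega

/-- the value is not too large -/
theorem natAbs_eval_le {σ : Type*} [Fintype σ] {F : MvPolynomial σ ℤ} {D H : ℕ}
    (hD : F.totalDegree ≤ D) (hH : l1 F ≤ H) {x : σ → ℕ} {X : ℕ} (hX : 1 ≤ X)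
    (hx : ∀ l, x l ≤ X) : (eval (fun l => (x l : ℤ)) F).natAbs ≤ H * X ^ D := by
  classical
  rw [eval_eq']
  refine (Int.natAbs_sum_le _ _).trans ?_
  refine le_trans ?_ (Nat.mul_le_mul_right _ hH)
  unfold l1
  rw [Finset.sum_mul]
  refine Finset.sum_le_sum fun s hs => ?_
  rw [Int.natAbs_mul]
  refine Nat.mul_le_mul_left _ ?_
  have h1 : (∏ i, (x i : ℤ) ^ s i) = ((∏ i, x i ^ s i : ℕ) : ℤ) := by push_cast; rfl
  rw [h1, Int.natAbs_natCast]
  calc ∏ i, x i ^ s i ≤ ∏ i, X ^ s i := Finset.prod_le_prod' fun i _ => Nat.pow_le_pow_left (hx i) _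
    _ = X ^ ∑ i, s i := Finset.prod_pow_eq_pow_sum _ _ _
    _ ≤ X ^ D := by
      refine Nat.pow_le_pow_right hX ?_
      have h2 : (s.sum fun _ e => e) ≤ F.totalDegree := le_totalDegree hs
      rw [Finsupp.sum_fintype _ _ (fun _ => rfl)] at h2
      exact h2.trans hD

end Pool.Agent.L7h16.GS
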