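import Mathlib

set_option autoImplicit false

/-! A sequence of points of given Zariski dense sets at which given polynomials do not vanish. -/

namespace Pool.Agent.L7h16.GS

open MvPolynomial

section
variable {K V : Type*} [Field K]

/-- no hypersurface contains the set -/
def Dense' (S : Set (V → K)) : Prop :=
  ∀ φ : MvPolynomial V K, φ ≠ 0 → ∃ z ∈ S, eval z φ ≠ 0

theorem one_point {n : ℕ} (F : MvPolynomial (Fin n × V) K) (y : Fin n → V → K) (l₀ : Fin n)
    (hy : eval (fun p : Fin n × V => y p.1 p.2) F ≠ 0) :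
    ∃ φ : MvPolynomial V K, φ ≠ 0 ∧ ∀ t : V → K, eval t φ ≠ 0 →
      eval (fun p : Fin n × V => Function.update y l₀ t p.1 p.2) F ≠ 0 := by
  classical
  obtain ⟨g, hg⟩ : ∃ g : MvPolynomial (Fin n × V) K →+* MvPolynomial V K,
      g = eval₂Hom C (fun p : Fin n × V => if p.1 = l₀ then X p.2 else C (y p.1 p.2)) := ⟨_, rfl⟩
  have key : ∀ t : V → K, eval t (g F) =
      eval (fun p : Fin n × V => Function.update y l₀ t p.1 p.2) F := by
    intro t
    have h : (eval t).comp g = eval (fun p : Fin n × V => Function.update y l₀ t p.1 p.2) := by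
      rw [hg]
      refine ringHom_ext (fun a => by simp) (fun p => ?_)
      by_cases hp : p.1 = l₀
      · simp [hp]
      · simp [hp]
    exact congrArg (fun φ : MvPolynomial (Fin n × V) K →+* K => φ F) h
  refine ⟨g F, fun h0 => hy ?_, fun t ht => by rw [← key]; exact ht⟩
  have h1 := key (y l₀)
  rw [h0, map_zero] at h1
  rw [Function.update_eq_self] at h1
  exact h1.symm

/-- the state after the choice of the first `j` points -/
def State (Φ : ∀ r _ : ℕ, MvPolynomial (Fin r × V) K) (ψ : ℕ → ℕ) (j : ℕ) (b : ℕ → V → K) : Prop :=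
  ∀ k r m : ℕ, r ≤ ψ k → m ≤ ψ k → Φ r m ≠ 0 → ∀ i : Fin r → ℕ, Function.Injective i →
    (∀ l, k ≤ i l) → ∃ y : Fin r → V → K, (∀ l, i l < j → y l = b (i l)) ∧
      eval (fun p : Fin r × V => y p.1 p.2) (Φ r m) ≠ 0

theorem state_zero [Infinite K] (Φ : ∀ r _ : ℕ, MvPolynomial (Fin r × V) K) (ψ : ℕ → ℕ)
    (b : ℕ → V → K) : State Φ ψ 0 b := by
  intro k r m _ _ h i _ _
  by_contra hcon
  push Not at hcon
  apply h
  apply MvPolynomial.funext
  intro x
  rw [map_zero]
  exact hcon (fun l v => x (l, v)) (fun l hl => absurd hl (Nat.not_lt_zero _))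

theorem exists_avoid {S : Set (V → K)} (hS : Dense' S) {ι : Type*} [Fintype ι]
    (φ : ι → MvPolynomial V K) (hφ : ∀ i, φ i ≠ 0) : ∃ z ∈ S, ∀ i, eval z (φ i) ≠ 0 := by
  classical
  obtain ⟨z, hz, h⟩ := hS (∏ i, φ i) (Finset.prod_ne_zero_iff.2 fun i _ => hφ i)
  refine ⟨z, hz, fun i => ?_⟩
  rw [map_prod] at h
  exact Finset.prod_ne_zero_iff.1 h i (Finset.mem_univ i)

theorem step [Nonempty V] {Φ : ∀ r _ : ℕ, MvPolynomial (Fin r × V) K} {ψ : ℕ → ℕ} {j : ℕ}
    {b : ℕ → V → K} (hb : State Φ ψ j b) {S : Set (V → K)} (hS : Dense' S) :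
    ∃ t ∈ S, (∀ i, i < j → t ≠ b i) ∧ State Φ ψ (j + 1) (Function.update b j t) := by
  classical
  obtain ⟨M, hM⟩ : ∃ M : ℕ, ∀ k, k ≤ j → ψ k ≤ M :=
    ⟨(Finset.range (j + 1)).sup ψ, fun k hk => Finset.le_sup (f := ψ) (by simpa using hk)⟩
  obtain ⟨v₀⟩ : Nonempty V := inferInstance
  -- the polynomial of a requirement
  have hreq : ∀ q : (Σ r : Fin (M + 1), Fin (M + 1) × (Fin (r : ℕ) → Fin (j + 2)) × Fin (r : ℕ)),
      ∃ φ : MvPolynomial V K, φ ≠ 0 ∧ ∀ t : V → K, eval t φ ≠ 0 →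
        (∃ y : Fin (q.1 : ℕ) → V → K, (∀ l, (q.2.2.1 l : ℕ) < j → y l = b (q.2.2.1 l)) ∧
          eval (fun p : Fin (q.1 : ℕ) × V => y p.1 p.2) (Φ q.1 q.2.1) ≠ 0) →
        ∃ y : Fin (q.1 : ℕ) → V → K, (∀ l, (q.2.2.1 l : ℕ) < j → l ≠ q.2.2.2 → y l = b (q.2.2.1 l)) ∧
          y q.2.2.2 = t ∧ eval (fun p : Fin (q.1 : ℕ) × V => y p.1 p.2) (Φ q.1 q.2.1) ≠ 0 := by
    rintro ⟨r, m, i, l₀⟩
    by_cases hq : ∃ y : Fin (r : ℕ) → V → K, (∀ l, (i l : ℕ) < j → y l = b (i l)) ∧
        eval (fun p : Fin (r : ℕ) × V => y p.1 p.2) (Φ r m) ≠ 0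
    · obtain ⟨y, hy, hy'⟩ := hq
      obtain ⟨φ, hφ, hφ'⟩ := one_point (Φ r m) y l₀ hy'
      refine ⟨φ, hφ, fun t ht _ => ⟨Function.update y l₀ t, fun l hl hne => ?_, ?_, hφ' t ht⟩⟩
      · simp only at hne
        rw [Function.update_of_ne hne]
        exact hy l hl
      · simp only
        rw [Function.update_self]
    · exact ⟨1, one_ne_zero, fun t _ h => absurd h hq⟩
  choose φ hφ hφ' using hreq
  obtain ⟨t, ht, ht'⟩ := exists_avoid hS (ι := (Σ r : Fin (M + 1), Fin (M + 1) ×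
      (Fin (r : ℕ) → Fin (j + 2)) × Fin (r : ℕ)) ⊕ Fin j)
    (Sum.elim φ fun i : Fin j => X v₀ - C (b i v₀)) (by
      rintro (q | i)
      · exact hφ q
      · intro h0
        have h0' : (X v₀ - C (b i v₀) : MvPolynomial V K) = 0 := h0
        have h1 := congrArg (eval fun _ : V => b i v₀ + 1) h0'
        simp at h1)
  refine ⟨t, ht, fun i hi h => ?_, ?_⟩
  · have h1 := ht' (Sum.inr ⟨i, hi⟩)
    simp only [Sum.elim_inr, map_sub, eval_X, eval_C] at h1
    rw [h] at h1
    exact h1 (sub_self _)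
  · intro k r m hr hm hne i hi hk
    obtain ⟨y, hy, hy'⟩ := hb k r m hr hm hne i hi hk
    by_cases hl : ∃ l₀, i l₀ = j
    · obtain ⟨l₀, hl₀⟩ := hl
      have hkj : k ≤ j := hl₀ ▸ hk l₀
      have hrM : r < M + 1 := by have := hM k hkj; omega
      have hmM : m < M + 1 := by have := hM k hkj; omega
      have hq := hφ' ⟨⟨r, hrM⟩, ⟨m, hmM⟩, fun l => ⟨min (i l) (j + 1), by omega⟩, l₀⟩ t
        (ht' (Sum.inl _)) ⟨y, fun l hl => by
          simp only at hl ⊢
          have h1 : min (i l) (j + 1) = i l := by omega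
          rw [h1] at hl ⊢
          exact hy l hl, hy'⟩
      obtain ⟨y', h1, h2, h3⟩ := hq
      simp only at h1 h2 h3
      refine ⟨y', fun l hl => ?_, h3⟩
      by_cases hll : l = l₀
      · rw [hll, h2, hl₀, Function.update_self]
      · have h4 : i l ≠ j := fun h => hll (hi (h.trans hl₀.symm))
        have h5 : i l < j := by omega
        have h6 : min (i l) (j + 1) = i l := by omega
        rw [Function.update_of_ne h4]
        have h7 := h1 l (by rw [h6]; exact h5) hll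
        rw [h6] at h7
        exact h7
    · push Not at hl
      refine ⟨y, fun l h => ?_, hy'⟩
      have h4 : i l ≠ j := hl l
      rw [Function.update_of_ne h4]
      exact hy l (by omega)

/-- **the selection lemma** -/
theorem exists_seq [Infinite K] [Nonempty V] (Φ : ∀ r _ : ℕ, MvPolynomial (Fin r × V) K)
    (ψ : ℕ → ℕ) (A : ℕ → Set (V → K)) (hA : ∀ j, Dense' (A j)) :
    ∃ b : ℕ → V → K, Function.Injective b ∧ (∀ j, b j ∈ A j) ∧
      ∀ k r m : ℕ, r ≤ ψ k → m ≤ ψ k → Φ r m ≠ 0 → ∀ i : Fin r → ℕ, Function.Injective i →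
        (∀ l, k ≤ i l) → eval (fun p : Fin r × V => b (i p.1) p.2) (Φ r m) ≠ 0 := by
  classical
  -- the recursion
  have hstep : ∀ (j : ℕ) (b : {b : ℕ → V → K // State Φ ψ j b}),
      ∃ t ∈ A j, (∀ i, i < j → t ≠ b.1 i) ∧ State Φ ψ (j + 1) (Function.update b.1 j t) :=
    fun j b => step b.2 (hA j)
  choose t ht ht1 ht2 using hstep
  obtain ⟨f, hf0, hf⟩ : ∃ f : ∀ j : ℕ, {b : ℕ → V → K // State Φ ψ j b}, True ∧
      ∀ j, (f (j + 1)).1 = Function.update (f j).1 j (t j (f j)) :=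
    ⟨fun j => Nat.rec ⟨fun _ _ => 0, state_zero Φ ψ _⟩
      (fun j b => ⟨Function.update b.1 j (t j b), ht2 j b⟩) j, trivial, fun j => rfl⟩
  have hstable : ∀ n i, (f (i + 1 + n)).1 i = (f (i + 1)).1 i := by
    intro n i
    induction n with
    | zero => rfl
    | succ n ih =>
      rw [← add_assoc, hf, Function.update_of_ne (by omega), ih]
  have hlt : ∀ i j, i < j → (f j).1 i = t i (f i) := by
    intro i j hij
    obtain ⟨n, rfl⟩ : ∃ n, j = i + 1 + n := ⟨j - (i + 1), by omega⟩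
    rw [hstable, hf, Function.update_self]
  refine ⟨fun j => t j (f j), ?_, fun j => ht j (f j), ?_⟩
  · have hne : ∀ i j, i < j → t i (f i) ≠ t j (f j) := by
      intro i j hij h
      refine ht1 j (f j) i hij ?_
      rw [hlt i j hij]
      exact h.symm
    intro i j hij
    rcases lt_trichotomy i j with h | h | h
    · exact absurd hij (hne i j h)
    · exact h
    · exact absurd hij.symm (hne j i h)
  · intro k r m hr hm hΦ i hi hk
    obtain ⟨J, hJ⟩ : ∃ J, ∀ l, i l < J :=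
      ⟨(Finset.univ.sup i) + 1, fun l => Nat.lt_succ_of_le (Finset.le_sup (f := i) (Finset.mem_univ l))⟩
    obtain ⟨y, hy, hy'⟩ := (f J).2 k r m hr hm hΦ i hi hk
    have h1 : y = fun l => t (i l) (f (i l)) := by
      funext l
      rw [hy l (hJ l), hlt _ _ (hJ l)]
    rw [h1] at hy'
    exact hy'

end

/-- infinite sets of numbers -/
theorem dense_of_infinite {K : Type*} [Field K] {S : Set K} (hS : S.Infinite) :
    Dense' {z : Unit → K | z () ∈ S} := by
  classical
  intro φ hφ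
  obtain ⟨g, hg⟩ : ∃ g : Polynomial K, g = aeval (fun _ : Unit => Polynomial.X) φ := ⟨_, rfl⟩
  have hev : ∀ x : K, g.eval x = eval (fun _ : Unit => x) φ := by
    intro x
    have h : (Polynomial.evalRingHom x).comp
        (aeval (fun _ : Unit => (Polynomial.X : Polynomial K)) : MvPolynomial Unit K →ₐ[K] _).toRingHom =
        eval (fun _ : Unit => x) := by
      refine ringHom_ext (fun a => by simp) (fun p => by simp)
    have h2 := congrArg (fun ψ : MvPolynomial Unit K →+* K => ψ φ) h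
    rw [hg]
    exact h2
  have hg0 : g ≠ 0 := by
    intro h0
    apply hφ
    apply MvPolynomial.funext_set (fun _ : Unit => S) (fun _ => hS)
    intro x _
    have h1 := hev (x ())
    rw [h0, Polynomial.eval_zero] at h1
    rw [map_zero]
    exact h1.symm
  by_contra hcon
  push Not at hcon
  apply hS
  refine Set.Finite.subset (g.roots.toFinset.finite_toSet) fun x hx => ?_
  rw [Finset.mem_coe, Multiset.mem_toFinset, Polynomial.mem_roots hg0, Polynomial.IsRoot.def, hev]
  exact hcon (fun _ => x) hx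

/-- the selection lemma for numbers -/
theorem exists_seq_num {K : Type*} [Field K] [Infinite K] (Φ : ∀ r _ : ℕ, MvPolynomial (Fin r) K)
    (ψ : ℕ → ℕ) (A : ℕ → Set K) (hA : ∀ j, (A j).Infinite) :
    ∃ b : ℕ → K, Function.Injective b ∧ (∀ j, b j ∈ A j) ∧
      ∀ k r m : ℕ, r ≤ ψ k → m ≤ ψ k → Φ r m ≠ 0 → ∀ i : Fin r → ℕ, Function.Injective i →
        (∀ l, k ≤ i l) → eval (fun l : Fin r => b (i l)) (Φ r m) ≠ 0 := by
  obtain ⟨b, h1, h2, h3⟩ := exists_seq (V := Unit)
    (fun r m => rename (fun l : Fin r => (l, ())) (Φ r m)) ψ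
    (fun j => {z : Unit → K | z () ∈ A j}) (fun j => dense_of_infinite (hA j))
  refine ⟨fun j => b j (), fun i j hij => h1 (funext fun _ => hij), h2, ?_⟩
  intro k r m hr hm hΦ i hi hk
  have hinj : Function.Injective (fun l : Fin r => (l, ())) := fun a b h => by simpa using h
  have h4 := h3 k r m hr hm (fun h => hΦ ((rename_injective _ hinj) (by rw [h, map_zero]))) i hi hk
  rw [eval_rename] at h4
  exact h4

end Pool.Agent.L7h16.GS
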