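import Mathlib

set_option autoImplicit false

/-! Large subsets of uncountable sets at the tuples of which no polynomial with integral coefficients
vanishes. -/

namespace Pool.Agent.L7h16.GS

open MvPolynomial

section
variable {K V : Type} [Field K]

/-- all polynomials with integral coefficients which are not zero over `K` do not vanish at the tuples of
distinct elements of `B` -/
def Free (B : Set (V → K)) : Prop :=
  ∀ (n : ℕ) (F : MvPolynomial (Fin n × V) ℤ), F.map (Int.castRingHom K) ≠ 0 →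
    ∀ x : Fin n → V → K, Function.Injective x → (∀ l, x l ∈ B) →
      eval (fun p : Fin n × V => x p.1 p.2) (F.map (Int.castRingHom K)) ≠ 0

/-- the last point as a variable -/
noncomputable def lastPoly {n : ℕ} (F : MvPolynomial (Fin (n + 1) × V) ℤ) (x : Fin n → V → K) :
    MvPolynomial V K :=
  eval₂Hom (C.comp (Int.castRingHom K))
    (fun p : Fin (n + 1) × V => (Fin.snoc (α := fun _ => V → MvPolynomial V K)
      (fun l v => C (x l v)) X : Fin (n + 1) → V → MvPolynomial V K) p.1 p.2) F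

theorem eval_lastPoly {n : ℕ} (F : MvPolynomial (Fin (n + 1) × V) ℤ) (x : Fin n → V → K) (z : V → K) :
    eval z (lastPoly F x) = eval (fun p : Fin (n + 1) × V =>
      (Fin.snoc (α := fun _ => V → K) x z : Fin (n + 1) → V → K) p.1 p.2)
        (F.map (Int.castRingHom K)) := by
  have h : (eval z).comp (eval₂Hom (C.comp (Int.castRingHom K))
    (fun p : Fin (n + 1) × V => (Fin.snoc (α := fun _ => V → MvPolynomial V K)
      (fun l v => C (x l v)) X : Fin (n + 1) → V → MvPolynomial V K) p.1 p.2)) =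
      (eval (fun p : Fin (n + 1) × V =>
      (Fin.snoc (α := fun _ => V → K) x z : Fin (n + 1) → V → K) p.1 p.2)).comp
        (MvPolynomial.map (Int.castRingHom K)) := by
    refine ringHom_ext (fun a => by simp) ?_
    rintro ⟨l, v⟩
    refine Fin.lastCases ?_ (fun l => ?_) l
    · simp
    · simp
  exact congrArg (fun φ : MvPolynomial (Fin (n + 1) × V) ℤ →+* K => φ F) h

/-- the last point split off -/
noncomputable def splitLast (n : ℕ) : MvPolynomial (Fin (n + 1) × V) ℤ →+*
    MvPolynomial V (MvPolynomial (Fin n × V) ℤ) :=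
  eval₂Hom (Int.castRingHom _)
    (fun p : Fin (n + 1) × V => (Fin.snoc (α := fun _ => V → MvPolynomial V (MvPolynomial (Fin n × V) ℤ))
      (fun l v => C (X (l, v))) X : Fin (n + 1) → V → _) p.1 p.2)

theorem map_splitLast {n : ℕ} (F : MvPolynomial (Fin (n + 1) × V) ℤ) (x : Fin n → V → K) :
    MvPolynomial.map ((eval (fun p : Fin n × V => x p.1 p.2)).comp
      (MvPolynomial.map (Int.castRingHom K))) (splitLast n F) = lastPoly F x := by
  have h : (MvPolynomial.map ((eval (fun p : Fin n × V => x p.1 p.2)).comp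
      (MvPolynomial.map (Int.castRingHom K)))).comp (splitLast n) =
      eval₂Hom (C.comp (Int.castRingHom K))
    (fun p : Fin (n + 1) × V => (Fin.snoc (α := fun _ => V → MvPolynomial V K)
      (fun l v => C (x l v)) X : Fin (n + 1) → V → MvPolynomial V K) p.1 p.2) := by
    unfold splitLast
    refine ringHom_ext (fun a => by simp) ?_
    rintro ⟨l, v⟩
    refine Fin.lastCases ?_ (fun l => ?_) l
    · simp
    · simp
  exact congrArg (fun φ : MvPolynomial (Fin (n + 1) × V) ℤ →+* MvPolynomial V K => φ F) h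

theorem coeff_lastPoly {n : ℕ} (F : MvPolynomial (Fin (n + 1) × V) ℤ) (x : Fin n → V → K)
    (s : V →₀ ℕ) : coeff s (lastPoly F x) =
      eval (fun p : Fin n × V => x p.1 p.2) ((coeff s (splitLast n F)).map (Int.castRingHom K)) := by
  rw [← map_splitLast, coeff_map]
  rfl

theorem lastPoly_ne [Infinite K] {B : Set (V → K)} (hB : Free B) {n : ℕ}
    {F : MvPolynomial (Fin (n + 1) × V) ℤ} (hF : F.map (Int.castRingHom K) ≠ 0)
    {x : Fin n → V → K} (hx : Function.Injective x) (hx' : ∀ l, x l ∈ B) : lastPoly F x ≠ 0 := by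
  have h1 : ∃ s, (coeff s (splitLast n F)).map (Int.castRingHom K) ≠ 0 := by
    by_contra hcon
    push Not at hcon
    apply hF
    apply MvPolynomial.funext
    intro y
    rw [map_zero]
    have h2 : lastPoly F (fun (l : Fin n) v => y (l.castSucc, v)) = 0 := by
      ext s
      rw [coeff_lastPoly, hcon s, map_zero, coeff_zero]
    have h3 := eval_lastPoly F (fun (l : Fin n) v => y (l.castSucc, v)) (fun v => y (Fin.last n, v))
    rw [h2, map_zero] at h3
    rw [h3]
    congr 1
    congr 1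
    funext p
    obtain ⟨l, v⟩ := p
    refine Fin.lastCases ?_ (fun l => ?_) l
    · simp
    · simp
  obtain ⟨s, hs⟩ := h1
  intro h0
  have h2 := hB n _ hs x hx hx'
  rw [← coeff_lastPoly, h0, coeff_zero] at h2
  exact h2 rfl

/-- one more point -/
theorem free_insert {B : Set (V → K)} (hB : Free B) {z : V → K}
    (hz : ∀ (n : ℕ) (F : MvPolynomial (Fin (n + 1) × V) ℤ), F.map (Int.castRingHom K) ≠ 0 →
      ∀ x : Fin n → V → K, Function.Injective x → (∀ l, x l ∈ B) → eval z (lastPoly F x) ≠ 0) :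
    Free (insert z B) := by
  classical
  intro n F hF x hx hxB
  by_cases h : ∃ l, x l = z
  · obtain ⟨l₀, hl₀⟩ := h
    obtain ⟨k, rfl⟩ : ∃ k, n = k + 1 := ⟨n - 1, by have := l₀.pos; omega⟩
    obtain ⟨σ, hσ⟩ : ∃ σ : Equiv.Perm (Fin (k + 1)), σ = Equiv.swap l₀ (Fin.last k) := ⟨_, rfl⟩
    have hσσ : ∀ l, σ (σ l) = l := fun l => by rw [hσ, Equiv.swap_apply_self]
    have hσl : σ (Fin.last k) = l₀ := by rw [hσ, Equiv.swap_apply_right]
    obtain ⟨F', hF'⟩ : ∃ F' : MvPolynomial (Fin (k + 1) × V) ℤ,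
        F' = rename (fun p : Fin (k + 1) × V => (σ p.1, p.2)) F := ⟨_, rfl⟩
    have hinj : Function.Injective (fun p : Fin (k + 1) × V => (σ p.1, p.2)) := by
      rintro ⟨a, b⟩ ⟨c, d⟩ h
      simp only [Prod.mk.injEq, EmbeddingLike.apply_eq_iff_eq] at h
      rw [h.1, h.2]
    have h1 : F'.map (Int.castRingHom K) ≠ 0 := by
      rw [hF', map_rename]
      intro h0
      exact hF ((rename_injective _ hinj) (by rw [h0, map_zero]))
    obtain ⟨y, hy⟩ : ∃ y : Fin k → V → K, y = fun l => x (σ l.castSucc) := ⟨_, rfl⟩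
    have hyinj : Function.Injective y := by
      intro a b hab
      rw [hy] at hab
      exact Fin.castSucc_injective _ (σ.injective (hx hab))
    have hyB : ∀ l, y l ∈ B := by
      intro l
      rw [hy]
      rcases hxB (σ l.castSucc) with h2 | h2
      · exfalso
        have h3 : σ l.castSucc = l₀ := hx (h2.trans hl₀.symm)
        have h4 : l.castSucc = Fin.last k := σ.injective (h3.trans hσl.symm)
        exact absurd h4 (Fin.castSucc_ne_last l)
      · exact h2
    have h2 := hz k F' h1 y hyinj hyB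
    rw [eval_lastPoly, hF', map_rename, eval_rename] at h2
    convert h2 using 3
    funext p
    obtain ⟨l, v⟩ := p
    have h3 : ∀ j : Fin (k + 1), (Fin.snoc (α := fun _ => V → K) y z : Fin (k + 1) → V → K) j =
        x (σ j) := by
      intro j
      refine Fin.lastCases ?_ (fun j => ?_) j
      · rw [Fin.snoc_last, hσl, hl₀]
      · rw [Fin.snoc_castSucc, hy]
    simp only [Function.comp_apply, h3, hσσ]
  · push Not at h
    exact hB n F hF x hx fun l => (hxB l).resolve_left (h l)

theorem exists_free (A : Set (V → K)) : ∃ B, Maximal (fun B => B ∈ {B : Set (V → K) | B ⊆ A ∧ Free B}) B := by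
  refine zorn_subset _ fun c hc hchain => ?_
  rcases c.eq_empty_or_nonempty with rfl | hne
  · refine ⟨∅, ⟨Set.empty_subset _, fun n F hF x hx hx' => ?_⟩, fun s hs => absurd hs (by simp)⟩
    rcases Nat.eq_zero_or_pos n with rfl | hn
    · intro h0
      apply hF
      have h1 : ∀ p : MvPolynomial (Fin 0 × V) K, eval (fun p : Fin 0 × V => x p.1 p.2) p = 0 → p = 0 := by
        intro p hp
        rw [eq_C_of_isEmpty p] at hp ⊢
        rw [eval_C] at hp
        rw [hp, C_0]
      exact h1 _ h0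
    · exact absurd (hx' ⟨0, hn⟩) (by simp)
  · refine ⟨⋃₀ c, ⟨Set.sUnion_subset fun s hs => (hc hs).1, fun n F hF x hx hx' => ?_⟩,
      fun s hs => Set.subset_sUnion_of_mem hs⟩
    obtain ⟨t, ht, ht'⟩ := hchain.directedOn.exists_mem_subset_of_finite_of_subset_sUnion hne
      (Set.finite_range x) (by rintro _ ⟨l, rfl⟩; exact hx' l)
    exact (hc ht).2 n F hF x hx fun l => ht' ⟨l, rfl⟩

/-- **large free subsets of uncountable sets** -/
theorem exists_large [Infinite K] [Finite V] {A : Set (V → K)} (hA : ¬ A.Countable)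
    (hA' : ∀ φ : MvPolynomial V K, φ ≠ 0 → {z | z ∈ A ∧ eval z φ = 0}.Countable) :
    ∃ B ⊆ A, Cardinal.mk B = Cardinal.mk A ∧ Free B := by
  classical
  obtain ⟨B, hB, hmax⟩ := exists_free A
  refine ⟨B, hB.1, le_antisymm (Cardinal.mk_le_mk_of_subset hB.1) ?_, hB.2⟩
  obtain ⟨Q, hQ⟩ : ∃ Q : Type, Q = (Σ n : ℕ, MvPolynomial (Fin (n + 1) × V) ℤ × (Fin n → B)) := ⟨_, rfl⟩
  obtain ⟨S, hS⟩ : ∃ S : (Σ n : ℕ, MvPolynomial (Fin (n + 1) × V) ℤ × (Fin n → B)) → Set (V → K),
      S = fun q => {z | z ∈ A ∧ lastPoly q.2.1 (fun l => (q.2.2 l : V → K)) ≠ 0 ∧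
        eval z (lastPoly q.2.1 (fun l => (q.2.2 l : V → K))) = 0} := ⟨_, rfl⟩
  have hcov : A ⊆ B ∪ ⋃ q, S q := by
    intro z hz
    by_contra hcon
    rw [Set.mem_union, not_or] at hcon
    apply hcon.1
    have h1 : Free (insert z B) := by
      refine free_insert hB.2 fun n F hF x hx hxB h0 => hcon.2 ?_
      refine Set.mem_iUnion.2 ⟨⟨n, F, fun l => ⟨x l, hxB l⟩⟩, ?_⟩
      rw [hS]
      exact ⟨hz, lastPoly_ne hB.2 hF hx hxB, h0⟩
    have h2 : insert z B ⊆ B := hmax ⟨Set.insert_subset hz hB.1, h1⟩ (Set.subset_insert z B)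
    exact h2 (Set.mem_insert z B)
  have hScount : ∀ q, Cardinal.mk (S q) ≤ Cardinal.aleph0 := by
    intro q
    rw [Cardinal.le_aleph0_iff_set_countable]
    by_cases h : lastPoly q.2.1 (fun l => (q.2.2 l : V → K)) = 0
    · refine Set.Countable.mono ?_ Set.countable_empty
      rw [hS]
      rintro z ⟨-, h1, -⟩
      exact absurd h h1
    · refine Set.Countable.mono ?_ (hA' _ h)
      rw [hS]
      rintro z ⟨h1, -, h2⟩
      exact ⟨h1, h2⟩
  obtain ⟨κ, hκ⟩ : ∃ κ, κ = max (Cardinal.mk B) Cardinal.aleph0 := ⟨_, rfl⟩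
  have hκ0 : Cardinal.aleph0 ≤ κ := hκ ▸ le_max_right _ _
  have hQc : Cardinal.mk (Σ n : ℕ, MvPolynomial (Fin (n + 1) × V) ℤ × (Fin n → B)) ≤ κ := by
    rw [Cardinal.mk_sigma]
    have h1 : ∀ n : ℕ, Cardinal.mk (MvPolynomial (Fin (n + 1) × V) ℤ × (Fin n → B)) ≤ κ := by
      intro n
      rw [Cardinal.mk_prod, Cardinal.lift_id, Cardinal.lift_id]
      have h2 : Cardinal.mk (MvPolynomial (Fin (n + 1) × V) ℤ) ≤ κ := by
        refine MvPolynomial.cardinalMk_le_max.trans ?_
        refine max_le (max_le ?_ ?_) hκ0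
        · exact Cardinal.mk_le_aleph0.trans hκ0
        · exact Cardinal.mk_le_aleph0.trans hκ0
      have h3 : Cardinal.mk (Fin n → B) ≤ κ := by
        rw [Cardinal.mk_pi, Cardinal.prod_const, Cardinal.lift_id, Cardinal.lift_id, Cardinal.mk_fin, hκ]
        exact Cardinal.power_nat_le_max
      exact (mul_le_mul' h2 h3).trans (Cardinal.mul_eq_self hκ0).le
    calc Cardinal.sum (fun n : ℕ => Cardinal.mk (MvPolynomial (Fin (n + 1) × V) ℤ × (Fin n → B)))
        ≤ Cardinal.sum (fun _ : ℕ => κ) := Cardinal.sum_le_sum _ _ h1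
      _ ≤ Cardinal.aleph0 * κ := by
          rw [Cardinal.sum_const, Cardinal.lift_id, Cardinal.lift_id, Cardinal.mk_nat]
      _ ≤ κ * κ := mul_le_mul' hκ0 le_rfl
      _ = κ := Cardinal.mul_eq_self hκ0
  have hU : Cardinal.mk ↥(⋃ q, S q) ≤ κ := by
    refine (Cardinal.mk_iUnion_le_sum_mk).trans ?_
    calc Cardinal.sum (fun q => Cardinal.mk (S q))
        ≤ Cardinal.sum (fun _ : (Σ n : ℕ, MvPolynomial (Fin (n + 1) × V) ℤ × (Fin n → B)) =>
            Cardinal.aleph0) := Cardinal.sum_le_sum _ _ hScount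
      _ ≤ κ * κ := by
          rw [Cardinal.sum_const, Cardinal.lift_id, Cardinal.lift_id]
          exact mul_le_mul' hQc hκ0
      _ = κ := Cardinal.mul_eq_self hκ0
  have h1 : Cardinal.mk A ≤ κ := by
    refine (Cardinal.mk_le_mk_of_subset hcov).trans ((Cardinal.mk_union_le _ _).trans ?_)
    refine (add_le_add (hκ ▸ le_max_left _ _ : Cardinal.mk B ≤ κ) hU).trans ?_
    exact (Cardinal.add_eq_self hκ0).le
  have h2 : Cardinal.aleph0 < Cardinal.mk A := by
    rw [← not_le, Cardinal.le_aleph0_iff_set_countable]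
    exact hA
  rw [hκ] at h1
  rcases le_max_iff.1 h1 with h3 | h3
  · exact h3
  · exact absurd h3 (not_le.2 h2)

end

end Pool.Agent.L7h16.GS
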