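import Mathlib
import Pool.Agent.L7h88.CG.CSpread
import Pool.Agent.L7h88.CG.Conf
import Pool.Agent.L7h88.CG.Ana
import Pool.Agent.L7h16.GS.Grow
import Pool.Agent.L7h16.GS.Sel
import Pool.Agent.L7h16.GS.Fact
import Pool.Agent.L7h16.GS.Unc

set_option autoImplicit false

/-! Collisions along germs with coefficients in given sets. -/

namespace Pool.Agent.L7h16.GS

open MvPolynomial Pool.Agent.Y210.EF Pool.Agent.H932R3 Pool.Agent.L7h88.CG

universe u

/-- the bounds -/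
def dB (r m : ℕ) : ℕ := 2 * cn r m * Nat.sqrt (2 * cn r m)

def hB (r m : ℕ) : ℕ := (cn r m).factorial ^ 2 * (2 * r) ^ dB r m

/-- the polynomial -/
theorem col_poly {r m : ℕ} (hr : 10 ≤ r) (hm : 1 ≤ m) : ∃ Φ : MvPolynomial (Fin r) ℤ, Φ ≠ 0 ∧
    Φ.totalDegree ≤ dB r m ∧ l1 Φ ≤ hB r m ∧
    ∀ (L : Type u) [Field L] (b : Fin r → L), ev0 b Φ ≠ 0 → ∀ d, JetDim r m 0 b d ↔ Gen r m d := by
  classical
  have hsub : {d | ¬ Gen r m d}.Subsingleton := by
    intro x hx y hy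
    exact win_unique hr (by_contra fun h => hx (gen_of_not_win hr h))
      (by_contra fun h => hy (gen_of_not_win hr h))
  have hc3 : 3 ≤ cn r m := by
    unfold cn
    have h1 : 1 ≤ (m + 1).choose 2 := Nat.choose_pos (by omega)
    calc 3 ≤ 10 * 1 := by norm_num
      _ ≤ r * (m + 1).choose 2 := Nat.mul_le_mul hr h1
  obtain ⟨Φ, h1, h2, h3, h4⟩ := spread_all0.{u} (K := ℚ) (m := m) (by omega : 1 ≤ r) hc3
    {d | ¬ Gen r m d}
    (by
      rcases hsub.eq_empty_or_singleton with h | ⟨x, h⟩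
      · exact Or.inl h
      · exact Or.inr ⟨x, h⟩) (fun d hd => by
        have hd' : ¬ ¬ Gen r m d := hd
        exact not_not.1 hd')
  refine ⟨Φ, h1, h2, h3, fun L _ b hb d => ⟨fun h => gen_of_any (by omega) h, fun h => ?_⟩⟩
  exact h4 L b hb d fun h5 => h5 h

/-- the values at natural numbers -/
theorem ev0_nat {r : ℕ} (Φ : MvPolynomial (Fin r) ℤ) (x : Fin r → ℕ) (L : Type u) [Field L] :
    ev0 (fun l => (x l : L)) Φ = ((eval (fun l => (x l : ℤ)) Φ : ℤ) : L) := by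
  have h : (ev0 (fun l => (x l : L)) : MvPolynomial (Fin r) ℤ →+* L) =
      (Int.castRingHom L).comp (eval (fun l => (x l : ℤ))) := by
    unfold ev0
    refine ringHom_ext (fun a => by simp) (fun l => by simp)
  rw [h]
  rfl

theorem ev0_eq {r : ℕ} (Φ : MvPolynomial (Fin r) ℤ) {L : Type u} [Field L] (b : Fin r → L) :
    ev0 b Φ = eval b (Φ.map (Int.castRingHom L)) := by
  unfold ev0
  rw [eval_map, coe_eval₂Hom]

/-- **fast growing coefficients** -/
theorem col_grow {r m : ℕ} (hr : 10 ≤ r) (hm : 1 ≤ m) {x : Fin r → ℕ} (hinj : Function.Injective x)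
    (hx : ∀ l, hB r m < x l) (hx' : ∀ l l', x l < x l' → hB r m * x l ^ dB r m < x l')
    (L : Type u) [Field L]
    (hL : CharZero L ∨ ∃ p : ℕ, CharP L p ∧ ∀ l, hB r m * x l ^ dB r m < p) (d : ℕ) :
    JetDim r m 0 (fun l => (x l : L)) d ↔ Gen r m d := by
  classical
  obtain ⟨Φ, h1, h2, h3, h4⟩ := col_poly.{u} hr hm
  refine h4 L _ (fun h0 => ?_) d
  rw [ev0_nat] at h0
  have h5 := grow h1 h2 h3 hx hx' hinj
  rcases hL with hL | ⟨p, hp, hlt⟩
  · exact h5 (by exact_mod_cast h0)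
  · have h6 : (p : ℤ) ∣ eval (fun l => (x l : ℤ)) Φ := (CharP.intCast_eq_zero_iff L p _).1 h0
    have h7 : p ∣ (eval (fun l => (x l : ℤ)) Φ).natAbs := Int.natCast_dvd.1 h6
    have h8 : (eval (fun l => (x l : ℤ)) Φ).natAbs ≠ 0 := Int.natAbs_ne_zero.2 h5
    have h9 := Nat.le_of_dvd (Nat.pos_of_ne_zero h8) h7
    have hne : (Finset.univ : Finset (Fin r)).Nonempty := ⟨⟨0, by omega⟩, Finset.mem_univ _⟩
    obtain ⟨l₀, -, hl₀⟩ := Finset.exists_max_image Finset.univ x hne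
    have h10 := natAbs_eval_le h2 h3 (x := x) (X := x l₀) (by have := hx l₀; omega)
      (fun l => hl₀ l (Finset.mem_univ l))
    have := hlt l₀
    omega

theorem hB_lt {r m : ℕ} (hr : 10 ≤ r) (hm : 1 ≤ m) : hB r m < 2 ^ (dB r m + 1).factorial := by
  have h1 : 1 ≤ (m + 1).choose 2 := Nat.choose_pos (by omega)
  have h2 : r ≤ cn r m := by
    unfold cn
    exact Nat.le_mul_of_pos_right r h1
  have h3 : 2 ≤ Nat.sqrt (2 * cn r m) := by
    rw [Nat.le_sqrt]
    omega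
  refine height_lt (N := cn r m) (r := r) (D := dB r m) (by omega) h2 ?_ le_rfl
  unfold dB
  calc 4 * cn r m = 2 * cn r m * 2 := by ring
    _ ≤ 2 * cn r m * Nat.sqrt (2 * cn r m) := Nat.mul_le_mul_left _ h3

/-- **the numbers `2 ^ j!`** -/
theorem col_fact {r m : ℕ} (hr : 10 ≤ r) (hm : 1 ≤ m) {i : Fin r → ℕ} (hinj : Function.Injective i)
    (hi : ∀ l, dB r m < i l) (L : Type u) [Field L]
    (hL : CharZero L ∨ ∃ p : ℕ, CharP L p ∧ ∀ l, hB r m * (2 ^ (i l).factorial) ^ dB r m < p) (d : ℕ) :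
    JetDim r m 0 (fun l => (2 : L) ^ (i l).factorial) d ↔ Gen r m d := by
  have hH := hB_lt hr hm
  have hD : 1 ≤ dB r m := by
    by_contra hcon
    have h0 : dB r m = 0 := by omega
    have h1 : 1 ≤ (m + 1).choose 2 := Nat.choose_pos (by omega)
    have h2 : 10 ≤ cn r m := hr.trans (Nat.le_mul_of_pos_right r h1)
    have h3 : 1 ≤ Nat.sqrt (2 * cn r m) := by
      rw [Nat.le_sqrt]
      omega
    unfold dB at h0
    have h4 : 1 ≤ 2 * cn r m * Nat.sqrt (2 * cn r m) := Nat.mul_pos (by omega) h3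
    omega
  have h1 := col_grow hr hm (x := fun l => 2 ^ (i l).factorial)
    (fun a b hab => hinj (fact_inj (by have := hi a; omega) hab))
    (fun l => (step_lt hH (hi l) (Nat.lt_succ_self (i l))).1)
    (fun l l' h => (step_lt hH (hi l) (fact_lt h)).2) L hL d
  push_cast at h1
  exact h1

/-- **arbitrary infinite sets** -/
theorem col_seq (K : Type u) [Field K] [CharZero K] (A : ℕ → Set K) (hA : ∀ j, (A j).Infinite)
    (ψ : ℕ → ℕ) : ∃ b : ℕ → K, Function.Injective b ∧ (∀ j, b j ∈ A j) ∧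
      ∀ k r m : ℕ, 10 ≤ r → 1 ≤ m → r ≤ ψ k → m ≤ ψ k → ∀ i : Fin r → ℕ, Function.Injective i →
        (∀ l, k ≤ i l) → ∀ d : ℕ, JetDim r m 0 (fun l => b (i l)) d ↔ Gen r m d := by
  classical
  obtain ⟨Φ, hΦ⟩ : ∃ Φ : ∀ r _ : ℕ, MvPolynomial (Fin r) ℤ, ∀ r m, 10 ≤ r → 1 ≤ m → Φ r m ≠ 0 ∧
      ∀ (b : Fin r → K), ev0 b (Φ r m) ≠ 0 → ∀ d, JetDim r m 0 b d ↔ Gen r m d := by
    have h : ∀ r m : ℕ, ∃ Φ : MvPolynomial (Fin r) ℤ, 10 ≤ r → 1 ≤ m → Φ ≠ 0 ∧
        ∀ (b : Fin r → K), ev0 b Φ ≠ 0 → ∀ d, JetDim r m 0 b d ↔ Gen r m d := by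
      intro r m
      by_cases h : 10 ≤ r ∧ 1 ≤ m
      · obtain ⟨Φ, h1, -, -, h4⟩ := col_poly.{u} h.1 h.2
        exact ⟨Φ, fun _ _ => ⟨h1, h4 K⟩⟩
      · exact ⟨0, fun h1 h2 => absurd ⟨h1, h2⟩ h⟩
    choose Φ hΦ using h
    exact ⟨Φ, hΦ⟩
  obtain ⟨b, h1, h2, h3⟩ := exists_seq_num (fun r m => (Φ r m).map (Int.castRingHom K)) ψ A hA
  refine ⟨b, h1, h2, fun k r m hr hm hrk hmk i hi hk d => ?_⟩
  obtain ⟨h4, h5⟩ := hΦ r m hr hm
  refine h5 _ ?_ d
  rw [ev0_eq]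
  exact h3 k r m hrk hmk (map_ne_zero_of_lt h4 le_rfl (Or.inl inferInstance)) i hi hk

/-- large subsets of uncountable sets of numbers -/
theorem exists_large_num (K : Type) [Field K] {A : Set K} (hA : ¬ A.Countable) :
    ∃ B ⊆ A, Cardinal.mk B = Cardinal.mk A ∧
      ∀ (r : ℕ) (Φ : MvPolynomial (Fin r) ℤ), Φ.map (Int.castRingHom K) ≠ 0 →
        ∀ b : Fin r → K, Function.Injective b → (∀ l, b l ∈ B) → ev0 b Φ ≠ 0 := by
  classical
  have hKunc : Uncountable K := by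
    rw [← Set.not_countable_univ_iff]
    exact fun h => hA (h.mono (Set.subset_univ _))
  have hinf : Infinite K := inferInstance
  obtain ⟨e, he⟩ : ∃ e : (Unit → K) ≃ K, ∀ z, e z = z () := ⟨Equiv.funUnique Unit K, fun _ => rfl⟩
  have hes : ∀ x : K, e.symm x = fun _ => x := by
    intro x
    rw [Equiv.symm_apply_eq, he]
  have hAe : e '' {z | z () ∈ A} = A := by
    ext x
    constructor
    · rintro ⟨z, hz, rfl⟩
      rw [he]
      exact hz
    · intro hx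
      exact ⟨fun _ => x, hx, he _⟩
  have hA1 : ¬ ({z | z () ∈ A} : Set (Unit → K)).Countable := by
    intro h
    apply hA
    rw [← hAe]
    exact h.image e
  obtain ⟨B, hBA, hBc, hBf⟩ := exists_large (V := Unit) hA1 (fun φ hφ => by
    refine Set.Finite.countable ?_
    have h1 : {x : K | eval (fun _ : Unit => x) φ = 0}.Finite := by
      by_contra hcon
      obtain ⟨z, hz, hz'⟩ := dense_of_infinite hcon φ hφ
      exact hz' hz
    have h2 : {z : Unit → K | z ∈ {z : Unit → K | z () ∈ A} ∧ eval z φ = 0} ⊆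
        e.symm '' {x : K | eval (fun _ : Unit => x) φ = 0} := by
      rintro z ⟨-, hz⟩
      exact ⟨z (), hz, hes _⟩
    exact (h1.image _).subset h2)
  refine ⟨e '' B, ?_, ?_, ?_⟩
  · rw [← hAe]
    exact Set.image_mono hBA
  · rw [Cardinal.mk_image_eq e.injective, hBc]
    conv_rhs => rw [← hAe]
    rw [Cardinal.mk_image_eq e.injective]
  · intro r Φ hΦ b hb hbB h0
    have hinj : Function.Injective (fun l : Fin r => (l, ())) := fun a b h => by simpa using h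
    have h5 := hBf r (rename (fun l : Fin r => (l, ())) Φ) (by
      rw [map_rename]
      intro h
      exact hΦ ((rename_injective _ hinj) (by rw [h, map_zero])))
      (fun l _ => b l) (fun a b' h => hb (congrFun h ())) (fun l => by
        obtain ⟨z, hz, hz'⟩ := hbB l
        have h6 : (fun _ : Unit => b l) = z := by
          rw [← hz', he]
        rw [h6]
        exact hz)
    rw [map_rename, eval_rename] at h5
    rw [ev0_eq] at h0
    exact h5 h0

/-- **uncountable sets** -/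
theorem col_unc (K : Type) [Field K] {A : Set K} (hA : ¬ A.Countable) :
    ∃ B ⊆ A, Cardinal.mk B = Cardinal.mk A ∧
      (∀ r m : ℕ, 10 ≤ r → 1 ≤ m → (CharZero K ∨ ∃ p : ℕ, CharP K p ∧ hB r m < p) →
        ∀ b : Fin r → K, Function.Injective b → (∀ l, b l ∈ B) →
          ∀ d : ℕ, JetDim r m 0 b d ↔ Gen r m d) ∧
      (CharZero K → ∀ r m : ℕ, 1 ≤ r → ∀ b : Fin r → K, Function.Injective b → (∀ l, b l ∈ B) →
          ∀ d : ℕ, JetDim r m 0 b d ↔ Gen r m d) := by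
  obtain ⟨B, h1, h2, h3⟩ := exists_large_num K hA
  refine ⟨B, h1, h2, fun r m hr hm hK b hb hbB d => ?_, fun hK r m hr b hb hbB d =>
    ⟨fun h => gen_of_any hr h, fun h => ?_⟩⟩
  · obtain ⟨Φ, h4, h5, h6, h7⟩ := col_poly.{0} hr hm
    exact h7 K b (h3 r Φ (map_ne_zero_of_lt h4 h6 hK) b hb hbB) d
  · obtain ⟨Φ, h4, h5⟩ := one_poly.{0} hr h
    exact h5 K b (h3 r Φ (map_ne_zero_of_lt h4 le_rfl (Or.inl hK)) b hb hbB)

end Pool.Agent.L7h16.GS
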