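import Mathlib
import Pool.Agent.L7h88.VG.Crv2
import Pool.Agent.L7h88.VG.Dim
import Pool.Agent.L7h16.GS.Grow
import Pool.Agent.L7h16.GS.Sel
import Pool.Agent.L7h16.GS.Fact
import Pool.Agent.L7h16.GS.Unc

set_option autoImplicit false

/-! Fat points with fast growing coordinates, or in given sets. -/

namespace Pool.Agent.L7h16.GS

open MvPolynomial Pool.Agent.Y210.EF Pool.Agent.H932R3 Pool.Agent.L7h88.VG

/-- the number of the conditions -/
def cP (r m : ℕ) : ℕ := r * (m + 1).choose 2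

/-- the bounds -/
def dP (r m : ℕ) : ℕ := 2 * cP r m * Nat.sqrt (2 * cP r m)

def hP (r m : ℕ) : ℕ := (cP r m).factorial ^ 2 * 2 ^ dP r m

theorem ten_le_cP {r m : ℕ} (hr : 10 ≤ r) (hm : 1 ≤ m) : r ≤ cP r m ∧ 10 ≤ cP r m := by
  have h1 : 1 ≤ (m + 1).choose 2 := Nat.choose_pos (by omega)
  have h2 : r ≤ cP r m := by
    unfold cP
    exact Nat.le_mul_of_pos_right r h1
  exact ⟨h2, hr.trans h2⟩

/-- the polynomial for the dimensions with explicit bounds -/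
theorem pts_poly {r m : ℕ} (hr : 10 ≤ r) (hm : 1 ≤ m) :
    ∃ Φ : MvPolynomial (Fin r × Fin 2) ℤ, Φ ≠ 0 ∧ Φ.totalDegree ≤ dP r m ∧ l1 Φ ≤ hP r m ∧
      ∀ Y : Fin r → Fin 2 → ℂ, ev Y Φ ≠ 0 → ∀ d, ¬ WinP r m d →
        Pool.Agent.TH387.EX.IsAH Y m d := by
  have hcnd : cnd (fun _ : Fin r => m) = cP r m := by
    unfold cnd cP
    rw [Finset.sum_const, Finset.card_univ, Fintype.card_fin, smul_eq_mul]
  have hc3 : 3 ≤ cnd (fun _ : Fin r => m) := by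
    rw [hcnd]
    have := (ten_le_cP hr hm).2
    omega
  have hsub : {d | WinP r m d}.Subsingleton := fun x hx y hy => winP_unique hx hy
  obtain ⟨y, hy, -⟩ := exists_indep (τ := Fin r × Fin 2) (g := 1) one_ne_zero
  obtain ⟨Φ, h1, h2, h3, h4⟩ := spread_all (K := ℂ) (P := fun i j => y (i, j)) hc3 {d | WinP r m d}
    (by
      rcases hsub.eq_empty_or_singleton with h | ⟨x, h⟩
      · exact Or.inl h
      · exact Or.inr ⟨x, h⟩) (fun d hd => dims hr hm (Y := fun i j => y (i, j)) hy hd)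
  rw [hcnd] at h2 h3
  refine ⟨Φ, h1, h2, h3.trans (le_of_eq ?_), fun Y hY d hd => ?_⟩
  · unfold hP dP
    congr 1
    rw [show (4 : ℕ) = 2 ^ 2 by norm_num, ← pow_mul]
    congr 1
    ring
  · have h5 := h4 ℂ Y hY d hd
    unfold ED at h5
    rw [Finset.sum_const, Finset.card_univ, Fintype.card_fin, smul_eq_mul] at h5
    have h6 : Module.finrank ℂ ↥(Pool.Agent.TH387.EX.part (Pool.Agent.TH387.EX.fat Y m) d) =
      (d + 2).choose 2 - r * (m + 1).choose 2 := h5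
    unfold Pool.Agent.TH387.EX.IsAH Pool.Agent.TH387.EX.hilb
    rw [h6, TH603.Sur.finrank_forms]
    omega

/-- the conclusion -/
def Full {r : ℕ} (Y : Fin r → Fin 2 → ℂ) (m d : ℕ) : Prop :=
  (¬ WinP r m d → Pool.Agent.TH387.EX.IsAH Y m d ∧ Pool.Agent.TH387.EX.Equivalence Y m d) ∧
    (Pool.Agent.TH387.EX.Equivalence Y m d ↔ Pool.Agent.TH387.EX.IsAH Y m d) ∧
    (Pool.Agent.TH387.EX.part (Pool.Agent.TH387.EX.fat Y m) d ≠ ⊥ →
      ∀ F, Pool.Agent.TH387.EX.IsExceptional Y F →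
        ∃ G ∈ Pool.Agent.TH387.EX.part (Pool.Agent.TH387.EX.fat Y m) d, ¬ F ∣ G)

theorem full_poly {r m : ℕ} (hr : 10 ≤ r) (hm : 1 ≤ m) :
    ∃ Ψ : MvPolynomial (Fin r × Fin 2) ℂ, Ψ ≠ 0 ∧ ∀ Y : Fin r → Fin 2 → ℂ,
      eval (fun ij : Fin r × Fin 2 => Y ij.1 ij.2) Ψ ≠ 0 → ∀ d, Full Y m d :=
  eq_poly hr hm

theorem full_indep {r m : ℕ} (hr : 10 ≤ r) (hm : 1 ≤ m) {Y : Fin r → Fin 2 → ℂ}
    (hY : AlgebraicIndependent ℚ (fun ij : Fin r × Fin 2 => Y ij.1 ij.2)) (d : ℕ) : Full Y m d := by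
  obtain ⟨h1, h2, h3⟩ := core' hr hY m
  refine ⟨fun h => ?_, h2 d, h3 d⟩
  have h4 := h1 d (dims hr hm hY h)
  exact ⟨h4, (h2 d).2 h4⟩

/-- common denominator -/
theorem clear_den {σ : Type*} (p : MvPolynomial σ ℚ) :
    ∃ (n : ℤ) (F : MvPolynomial σ ℤ), n ≠ 0 ∧ F.map (Int.castRingHom ℚ) = C (n : ℚ) * p := by
  induction p using MvPolynomial.induction_on with
  | C a =>
    refine ⟨a.den, C a.num, by exact_mod_cast a.den_nz, ?_⟩
    rw [map_C, ← C_mul]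
    congr 1
    have := Rat.den_mul_eq_num a
    push_cast
    exact this.symm
  | add p q hp hq =>
    obtain ⟨n₁, F₁, h1, h2⟩ := hp
    obtain ⟨n₂, F₂, h3, h4⟩ := hq
    refine ⟨n₁ * n₂, C n₂ * F₁ + C n₁ * F₂, mul_ne_zero h1 h3, ?_⟩
    rw [map_add, map_mul, map_mul, h2, h4, map_C, map_C]
    push_cast
    rw [C_mul]
    simp only [eq_intCast]
    ring
  | mul_X p i hp =>
    obtain ⟨n, F, h1, h2⟩ := hp
    refine ⟨n, F * X i, h1, ?_⟩
    rw [map_mul, h2, map_X]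
    ring

/-- integral polynomials below complex ones -/
theorem rational_form {σ : Type*} {Ψ : MvPolynomial σ ℂ} (hΨ : Ψ ≠ 0) :
    ∃ F : MvPolynomial σ ℤ, F ≠ 0 ∧ ∀ x : σ → ℕ, eval (fun i => (x i : ℤ)) F ≠ 0 →
      eval (fun i => (x i : ℂ)) Ψ ≠ 0 := by
  classical
  obtain ⟨s, hs⟩ := ne_zero_iff.1 hΨ
  obtain ⟨f, hf⟩ : ∃ f : Module.Dual ℚ ℂ, f (coeff s Ψ) ≠ 0 := by
    by_contra hcon
    push Not at hcon
    exact hs ((Module.forall_dual_apply_eq_zero_iff ℚ _).1 hcon)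
  obtain ⟨P, hP⟩ : ∃ P : MvPolynomial σ ℚ, P = ∑ t ∈ Ψ.support, monomial t (f (coeff t Ψ)) := ⟨_, rfl⟩
  have hPs : coeff s P ≠ 0 := by
    rw [hP, coeff_sum]
    simp only [coeff_monomial]
    rw [Finset.sum_ite_eq' Ψ.support s, if_pos (mem_support_iff.2 hs)]
    exact hf
  have hev : ∀ x : σ → ℕ, eval (fun i => (x i : ℚ)) P = f (eval (fun i => (x i : ℂ)) Ψ) := by
    intro x
    rw [hP, map_sum]
    conv_rhs => rw [eval_eq, map_sum]
    refine Finset.sum_congr rfl fun t _ => ?_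
    rw [eval_monomial]
    have h1 : coeff t Ψ * ∏ i ∈ t.support, (x i : ℂ) ^ t i =
        (t.prod fun i e => (x i : ℚ) ^ e) • coeff t Ψ := by
      rw [Finsupp.prod, Rat.smul_def, mul_comm]
      push_cast
      rfl
    rw [h1, map_smul, smul_eq_mul, mul_comm]
  obtain ⟨n, F, hn, hF⟩ := clear_den P
  have hF0 : F ≠ 0 := by
    intro h0
    rw [h0, map_zero] at hF
    have h1 : (C (n : ℚ) : MvPolynomial σ ℚ) * P ≠ 0 := mul_ne_zero
      (fun h => hn (by exact_mod_cast (C_eq_zero.1 h))) (fun h => hPs (by rw [h, coeff_zero]))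
    exact h1 hF.symm
  refine ⟨F, hF0, fun x hx h0 => hx ?_⟩
  have h1 : eval (fun i => (x i : ℚ)) (F.map (Int.castRingHom ℚ)) = 0 := by
    rw [hF, map_mul, hev, h0, map_zero, mul_zero]
  have h2 : eval (fun i => (x i : ℚ)) (F.map (Int.castRingHom ℚ)) =
      ((eval (fun i => (x i : ℤ)) F : ℤ) : ℚ) := by
    have h : (eval (fun i => (x i : ℚ))).comp (MvPolynomial.map (Int.castRingHom ℚ)) =
        (Int.castRingHom ℚ).comp (eval (fun i => (x i : ℤ))) :=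
      ringHom_ext (fun a => by simp) (fun i => by simp)
    exact congrArg (fun φ : MvPolynomial σ ℤ →+* ℚ => φ F) h
  rw [h2] at h1
  exact_mod_cast h1

theorem ev_nat {r : ℕ} (Φ : MvPolynomial (Fin r × Fin 2) ℤ) (x : Fin r → Fin 2 → ℕ) :
    ev (fun i j => (x i j : ℂ)) Φ =
      ((eval (fun p : Fin r × Fin 2 => (x p.1 p.2 : ℤ)) Φ : ℤ) : ℂ) := by
  have h : (ev (fun i j => (x i j : ℂ)) : MvPolynomial (Fin r × Fin 2) ℤ →+* ℂ) =
      (Int.castRingHom ℂ).comp (eval (fun p : Fin r × Fin 2 => (x p.1 p.2 : ℤ))) := by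
    unfold ev
    refine ringHom_ext (fun a => by simp) (fun l => by simp)
  rw [h]
  rfl

/-- **fast growing coordinates: the dimension** -/
theorem pts_grow {r m : ℕ} (hr : 10 ≤ r) (hm : 1 ≤ m) {x : Fin r → Fin 2 → ℕ}
    (hinj : Function.Injective (fun p : Fin r × Fin 2 => x p.1 p.2)) (hx : ∀ i j, hP r m < x i j)
    (hx' : ∀ p p' : Fin r × Fin 2, x p.1 p.2 < x p'.1 p'.2 →
      hP r m * x p.1 p.2 ^ dP r m < x p'.1 p'.2) (d : ℕ) (hd : ¬ WinP r m d) :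
    Pool.Agent.TH387.EX.IsAH (fun i j => (x i j : ℂ)) m d := by
  obtain ⟨Φ, h1, h2, h3, h4⟩ := pts_poly hr hm
  refine h4 _ (fun h0 => ?_) d hd
  rw [ev_nat] at h0
  exact grow h1 h2 h3 (fun p => hx p.1 p.2) hx' hinj (by exact_mod_cast h0)

/-- **fast growing coordinates: everything** -/
theorem full_grow {r m : ℕ} (hr : 10 ≤ r) (hm : 1 ≤ m) : ∃ B : ℕ, ∀ x : Fin r → Fin 2 → ℕ,
    Function.Injective (fun p : Fin r × Fin 2 => x p.1 p.2) → (∀ i j, B < x i j) →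
    (∀ p p' : Fin r × Fin 2, x p.1 p.2 < x p'.1 p'.2 → B * x p.1 p.2 ^ B < x p'.1 p'.2) →
    ∀ d : ℕ, Full (fun i j => (x i j : ℂ)) m d := by
  obtain ⟨Ψ, h1, h2⟩ := full_poly hr hm
  obtain ⟨F, h3, h4⟩ := rational_form h1
  refine ⟨max F.totalDegree (l1 F), fun x hinj hx hx' => h2 _ ?_⟩
  exact h4 (fun p => x p.1 p.2) (grow h3 (le_max_left _ _) (le_max_right _ _)
    (fun p => hx p.1 p.2) hx' hinj)

/-- the points -/
theorem idx_inj {r : ℕ} {a : Fin r → ℕ} (ha : Function.Injective a) (p p' : Fin r × Fin 2)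
    (h : 2 * a p.1 + (p.2 : ℕ) = 2 * a p'.1 + (p'.2 : ℕ)) : p = p' := by
  obtain ⟨i, j⟩ := p
  obtain ⟨i', j'⟩ := p'
  simp only at h
  have h1 : (j : ℕ) = j' := by omega
  have h2 : a i = a i' := by omega
  rw [ha h2, Fin.ext h1]

theorem pts_fact_aux {r D H : ℕ} (hH : H < 2 ^ (D + 1).factorial) {a : Fin r → ℕ}
    (ha : Function.Injective a) (hD : 1 ≤ D) (haD : ∀ i, D < 2 * a i) :
    Function.Injective (fun p : Fin r × Fin 2 => 2 ^ (2 * a p.1 + (p.2 : ℕ)).factorial) ∧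
    (∀ (i : Fin r) (j : Fin 2), H < 2 ^ (2 * a i + (j : ℕ)).factorial) ∧
    ∀ p p' : Fin r × Fin 2, 2 ^ (2 * a p.1 + (p.2 : ℕ)).factorial <
      2 ^ (2 * a p'.1 + (p'.2 : ℕ)).factorial →
        H * (2 ^ (2 * a p.1 + (p.2 : ℕ)).factorial) ^ D < 2 ^ (2 * a p'.1 + (p'.2 : ℕ)).factorial := by
  refine ⟨fun p p' h => idx_inj ha p p' (fact_inj ?_ h), fun i j => ?_, fun p p' h => ?_⟩
  · have := haD p.1
    omega
  · exact (step_lt hH (by have := haD i; omega : D < 2 * a i + (j : ℕ)) (Nat.lt_succ_self _)).1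
  · exact (step_lt hH (by have := haD p.1; omega) (fact_lt h)).2

theorem hP_lt {r m : ℕ} (hr : 10 ≤ r) (hm : 1 ≤ m) : hP r m < 2 ^ (dP r m + 1).factorial := by
  obtain ⟨h1, h2⟩ := ten_le_cP hr hm
  have h3 : 2 ≤ Nat.sqrt (2 * cP r m) := by
    rw [Nat.le_sqrt]
    omega
  refine height_lt (N := cP r m) (r := r) (D := dP r m) (by omega) h1 ?_ ?_
  · unfold dP
    calc 4 * cP r m = 2 * cP r m * 2 := by ring
      _ ≤ 2 * cP r m * Nat.sqrt (2 * cP r m) := Nat.mul_le_mul_left _ h3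
  · unfold hP
    exact Nat.mul_le_mul_left _ (Nat.pow_le_pow_left (by omega) _)

theorem one_le_dP {r m : ℕ} (hr : 10 ≤ r) (hm : 1 ≤ m) : 1 ≤ dP r m := by
  obtain ⟨h1, h2⟩ := ten_le_cP hr hm
  have h3 : 2 ≤ Nat.sqrt (2 * cP r m) := by
    rw [Nat.le_sqrt]
    omega
  unfold dP
  exact Nat.mul_pos (by omega) (by omega)

/-- **one sequence of points: the dimension** -/
theorem pts_fact {r m : ℕ} (hr : 10 ≤ r) (hm : 1 ≤ m) {a : Fin r → ℕ} (ha : Function.Injective a)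
    (haD : ∀ i, dP r m < 2 * a i) (d : ℕ) (hd : ¬ WinP r m d) :
    Pool.Agent.TH387.EX.IsAH (fun i (j : Fin 2) => (2 : ℂ) ^ (2 * a i + (j : ℕ)).factorial) m d := by
  obtain ⟨h1, h2, h3⟩ := pts_fact_aux (hP_lt hr hm) ha (one_le_dP hr hm) haD
  have h4 := pts_grow hr hm (x := fun i (j : Fin 2) => 2 ^ (2 * a i + (j : ℕ)).factorial) h1 h2 h3 d hd
  push_cast at h4
  exact h4

/-- **one sequence of points: everything** -/
theorem full_fact {r m : ℕ} (hr : 10 ≤ r) (hm : 1 ≤ m) : ∃ k : ℕ, ∀ a : Fin r → ℕ,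
    Function.Injective a → (∀ i, k ≤ a i) → ∀ d : ℕ,
      Full (fun i (j : Fin 2) => (2 : ℂ) ^ (2 * a i + (j : ℕ)).factorial) m d := by
  obtain ⟨B, hB⟩ := full_grow hr hm
  refine ⟨B + 1, fun a ha hak d => ?_⟩
  have hH : B < 2 ^ (B + 1 + 1).factorial :=
    (B.lt_two_pow_self).trans_le (Nat.pow_le_pow_right (by norm_num)
      ((Nat.le_succ B).trans ((Nat.le_succ (B + 1)).trans (Nat.self_le_factorial _))))
  obtain ⟨h1, h2, h3⟩ := pts_fact_aux (D := B + 1) hH ha (by omega) fun i => by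
    have := hak i
    omega
  obtain ⟨x, hx⟩ : ∃ x : Fin r → Fin 2 → ℕ, x = fun i (j : Fin 2) => 2 ^ (2 * a i + (j : ℕ)).factorial :=
    ⟨_, rfl⟩
  have hxx : ∀ i j, x i j = 2 ^ (2 * a i + (j : ℕ)).factorial := fun i j => by rw [hx]
  simp only [← hxx] at h1 h2 h3
  have h4 : ∀ d : ℕ, Full (fun i j => (x i j : ℂ)) m d := by
    refine hB x h1 h2 fun p p' h => ?_
    refine lt_of_le_of_lt (Nat.mul_le_mul_left B ?_) (h3 p p' h)
    exact Nat.pow_le_pow_right (by have := h2 p.1 p.2; omega) (Nat.le_succ B)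
  have h5 : (fun i (j : Fin 2) => (2 : ℂ) ^ (2 * a i + (j : ℕ)).factorial) = fun i j => (x i j : ℂ) := by
    funext i j
    rw [hxx]
    push_cast
    rfl
  rw [h5]
  exact h4 d

end Pool.Agent.L7h16.GS
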