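import Mathlib
import Pool.Agent.L7h88.VG.Crv2
import Pool.Agent.L7h88.VG.Dim
import Pool.Agent.L7h16.GS.Grow
import Pool.Agent.L7h16.GS.Sel
import Pool.Agent.L7h16.GS.Fact
import Pool.Agent.L7h16.GS.Unc
import Pool.Agent.L7h16.GS.Pts0

set_option autoImplicit false

/-! Fat points with fast growing coordinates, or in given sets. -/

namespace Pool.Agent.L7h16.GS

open MvPolynomial Pool.Agent.Y210.EF Pool.Agent.H932R3 Pool.Agent.L7h88.VG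

/-- the polynomials, chosen -/
theorem full_polys : ∃ Φ : ∀ r _ : ℕ, MvPolynomial (Fin r × Fin 2) ℂ, ∀ r m : ℕ, 10 ≤ r → 1 ≤ m →
    Φ r m ≠ 0 ∧ ∀ Y : Fin r → Fin 2 → ℂ,
      eval (fun ij : Fin r × Fin 2 => Y ij.1 ij.2) (Φ r m) ≠ 0 → ∀ d, Full Y m d := by
  classical
  have h : ∀ r m : ℕ, ∃ Φ : MvPolynomial (Fin r × Fin 2) ℂ, 10 ≤ r → 1 ≤ m → Φ ≠ 0 ∧
      ∀ Y : Fin r → Fin 2 → ℂ,
        eval (fun ij : Fin r × Fin 2 => Y ij.1 ij.2) Φ ≠ 0 → ∀ d, Full Y m d := by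
    intro r m
    by_cases h : 10 ≤ r ∧ 1 ≤ m
    · obtain ⟨Φ, h1, h2⟩ := full_poly h.1 h.2
      exact ⟨Φ, fun _ _ => ⟨h1, h2⟩⟩
    · exact ⟨0, fun h1 h2 => absurd ⟨h1, h2⟩ h⟩
  choose Φ hΦ using h
  exact ⟨Φ, hΦ⟩

/-- **given Zariski dense sets** -/
theorem pts_seq (A : ℕ → Set (Fin 2 → ℂ)) (hA : ∀ j, Dense' (A j)) (ψ : ℕ → ℕ) :
    ∃ P : ℕ → Fin 2 → ℂ, Function.Injective P ∧ (∀ j, P j ∈ A j) ∧
      ∀ k r m : ℕ, 10 ≤ r → 1 ≤ m → r ≤ ψ k → m ≤ ψ k → ∀ i : Fin r → ℕ, Function.Injective i →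
        (∀ l, k ≤ i l) → ∀ d : ℕ, Full (fun l => P (i l)) m d := by
  obtain ⟨Φ, hΦ⟩ := full_polys
  obtain ⟨b, h1, h2, h3⟩ := exists_seq Φ ψ A hA
  refine ⟨b, h1, h2, ?_⟩
  intro k r m hr hm hrk hmk i hi hk d
  have h4 := h3 k r m hrk hmk (hΦ r m hr hm).1 i hi hk
  exact (hΦ r m hr hm).2 (fun l => b (i l)) h4 d

/-- free sets give algebraically independent coordinates -/
theorem indep_of_free {B : Set (Fin 2 → ℂ)} (hB : Free B) {r : ℕ} {Y : Fin r → Fin 2 → ℂ}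
    (hY : Function.Injective Y) (hYB : ∀ i, Y i ∈ B) :
    AlgebraicIndependent ℚ (fun ij : Fin r × Fin 2 => Y ij.1 ij.2) := by
  rw [algebraicIndependent_iff]
  intro p hp
  by_contra hp0
  obtain ⟨n, F, hn, hF⟩ := clear_den p
  have hF0 : F ≠ 0 := by
    intro h0
    rw [h0, map_zero] at hF
    exact mul_ne_zero (fun h => hn (by exact_mod_cast (C_eq_zero.1 h))) hp0 hF.symm
  have h1 : F.map (Int.castRingHom ℂ) ≠ 0 := map_ne_zero_of_lt hF0 le_rfl (Or.inl inferInstance)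
  refine hB r F h1 Y hY hYB ?_
  have h2 : F.map (Int.castRingHom ℂ) = (F.map (Int.castRingHom ℚ)).map (algebraMap ℚ ℂ) := by
    rw [map_map]
    congr 1
  have h3 : eval (fun ij : Fin r × Fin 2 => Y ij.1 ij.2) (p.map (algebraMap ℚ ℂ)) = 0 := by
    rw [eval_map, ← aeval_def]
    exact hp
  rw [h2, hF, map_mul, map_mul, h3, mul_zero]

/-- **given uncountable sets** -/
theorem pts_unc {A : Set (Fin 2 → ℂ)} (hA : ¬ A.Countable)
    (hA' : ∀ φ : MvPolynomial (Fin 2) ℂ, φ ≠ 0 → {z | z ∈ A ∧ eval z φ = 0}.Countable) :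
    ∃ B ⊆ A, Cardinal.mk B = Cardinal.mk A ∧
      ∀ r m : ℕ, 10 ≤ r → 1 ≤ m → ∀ Y : Fin r → Fin 2 → ℂ, Function.Injective Y →
        (∀ i, Y i ∈ B) → ∀ d : ℕ, Full Y m d := by
  obtain ⟨B, h1, h2, h3⟩ := exists_large hA hA'
  exact ⟨B, h1, h2, fun r m hr hm Y hY hYB d => full_indep hr hm (indep_of_free h3 hY hYB) d⟩

end Pool.Agent.L7h16.GS
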